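import Mathlib
import Pool.Agent.TH361.MP.F

/-!
# An exponential improvement of the Milman-Pajor bound for `vol (K ∩ -K)`
-/

set_option autoImplicit false

open MeasureTheory

namespace Pool.Agent.Results.MP_e508a7_gt.ExponentialImprovement

/-- For every convex body `K` in `n`-dimensional Euclidean space with centroid `0`,
`vol (K ∩ -K) ≥ 2^n n! (8e / (27 (n+1)))^(n+1) vol K ≥ √(π / (2(n+1))) (16/27)^(n+1) vol K`. -/
theorem result (n : ℕ) (K : Set (EuclideanSpace ℝ (Fin n))) (hK : IsCompact K)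
    (hc : Convex ℝ K) (hi : (interior K).Nonempty) (h0 : ∫ x in K, x = 0) :
    √(Real.pi / (2 * (n + 1))) * (16 / 27) ^ (n + 1) * volume.real K ≤
      (2:ℝ) ^ n * n.factorial * (8 * Real.exp 1 / (27 * (n + 1))) ^ (n + 1) * volume.real K ∧
    (2:ℝ) ^ n * n.factorial * (8 * Real.exp 1 / (27 * (n + 1))) ^ (n + 1) * volume.real K ≤
      volume.real {x : EuclideanSpace ℝ (Fin n) | x ∈ K ∧ -x ∈ K} := by
  have h1 := Pool.Agent.TH361.MP.main_body (volume : Measure (EuclideanSpace ℝ (Fin n))) hK hc hi h0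
  have h2 := Pool.Agent.TH361.MP.stirling_bound n
  rw [finrank_euclideanSpace_fin] at h1
  push_cast at h1 h2
  exact ⟨mul_le_mul_of_nonneg_right h2 measureReal_nonneg, h1⟩

end Pool.Agent.Results.MP_e508a7_gt.ExponentialImprovement
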